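import Pool.Agent.W2helper37.DP.Stm

/-!
# Piece OPM (helper37, project DP): projections to finitely many coordinates are open maps
-/

set_option autoImplicit false

namespace Pool.Agent.W2helper15.DP

open Set Pool.Agent.W2helper37.DP

universe u v

/-- projections to finitely many coordinates are open maps -/
theorem p_opm_aux {X : Type u} [TopologicalSpace X] {ι : Type v} {k : ℕ} (e : Fin k → ι)
    (he : Function.Injective e) (U : Set (ι → X)) (hU : IsOpen U) :
    IsOpen ((fun (x : ι → X) (j : Fin k) => x (e j)) '' U) := by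
  classical
  rw [isOpen_iff_mem_nhds]
  rintro _ ⟨x, hx, rfl⟩
  obtain ⟨s, G, hG, hsub⟩ := isOpen_pi_iff.1 hU x hx
  have h1 : {z : Fin k → X | ∀ j, e j ∈ s → z j ∈ G (e j)} ∈ nhds (fun j => x (e j)) := by
    have h2 : {z : Fin k → X | ∀ j, e j ∈ s → z j ∈ G (e j)} =
        Set.pi {j | e j ∈ s} (fun j => G (e j)) := by
      ext z
      rfl
    rw [h2]
    refine (isOpen_set_pi (Set.toFinite _) fun j hj => (hG (e j) hj).1).mem_nhds ?_
    intro j hj
    exact (hG (e j) hj).2
  refine Filter.mem_of_superset h1 ?_
  intro z hz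
  refine ⟨Function.extend e z x, hsub ?_, ?_⟩
  · intro i hi
    by_cases h : ∃ j, e j = i
    · obtain ⟨j, rfl⟩ := h
      rw [he.extend_apply]
      exact hz j hi
    · rw [Function.extend_apply' _ _ _ h]
      exact (hG i hi).2
  · funext j
    exact he.extend_apply z x j

/-- **OPM** -/
theorem p_opm : P_OPM.{u, v} := fun e he U hU => p_opm_aux e he U hU

end Pool.Agent.W2helper15.DP
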